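import Mathlib
import Pool.Agent.D0H44.FR.Stm

/-! Project FR, package CH (helper51): the class modulo `l r` against the class modulo `l`. -/

set_option autoImplicit false

open Finset MeasureTheory

namespace Pool.Agent.D0H51.FR.CH

open Pool.Agent.H398R2.BV Pool.Agent.H410R2
open Pool.Agent.D0H44.FR

open Classical in
/-- re-indexing of all the characters by primitive characters -/
lemma sum_char_eq (m : ℕ) [NeZero m] (w : DirichletCharacter ℂ m → ℂ)
    (W : (f : ℕ) → DirichletCharacter ℂ f → ℂ)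
    (hW : ∀ f (h : f ∣ m) (ψ : DirichletCharacter ℂ f),
      w (DirichletCharacter.changeLevel h ψ) = W f ψ) :
    ∑ χ : DirichletCharacter ℂ m, w χ = ∑ f ∈ m.divisors, ∑ ψ ∈ Prim f, W f ψ := by
  have h1 : ∀ χ ∈ (univ : Finset (DirichletCharacter ℂ m)), χ.conductor ∈ m.divisors := by
    intro χ _
    exact Nat.mem_divisors.mpr ⟨χ.conductor_dvd_level, NeZero.ne m⟩
  rw [← sum_fiberwise_of_maps_to h1]
  apply sum_congr rfl
  intro f hf
  rw [Nat.mem_divisors] at hf
  have hfm := hf.1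
  have h2 : ((univ : Finset (DirichletCharacter ℂ m)).filter (fun χ => χ.conductor = f)) =
      (Prim f).image (DirichletCharacter.changeLevel hfm) := by
    ext χ
    constructor
    · intro hχ
      rw [mem_filter] at hχ
      obtain ⟨_, hc⟩ := hχ
      subst hc
      rw [mem_image]
      exact ⟨χ.primitiveCharacter, by
        unfold Prim
        rw [mem_filter]; exact ⟨mem_univ _, χ.primitiveCharacter_isPrimitive⟩,
        χ.changeLevel_primitiveCharacter⟩
    · intro hχ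
      rw [mem_image] at hχ
      obtain ⟨ψ, hψ, rfl⟩ := hχ
      unfold Prim at hψ
      rw [mem_filter] at hψ
      have hc : (DirichletCharacter.changeLevel hfm ψ).conductor = f := by
        rw [DirichletCharacter.conductor_changeLevel]
        exact hψ.2
      rw [mem_filter]
      exact ⟨mem_univ _, hc⟩
  rw [h2, sum_image fun x _ y _ hxy => DirichletCharacter.changeLevel_injective hfm hxy]
  exact sum_congr rfl fun ψ _ => hW f hfm ψ

lemma char_inv (m a : ℕ) (ha : a.Coprime m) (χ : DirichletCharacter ℂ m) :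
    χ ((a : ZMod m)⁻¹) = (χ (a : ZMod m))⁻¹ := by
  have hu : IsUnit (a : ZMod m) := (ZMod.isUnit_iff_coprime a m).mpr ha
  apply eq_inv_of_mul_eq_one_left
  rw [← map_mul, ZMod.inv_mul_of_unit _ hu, map_one]

lemma char_changeLevel (m f a : ℕ) (h : f ∣ m) (ha : a.Coprime m) (ψ : DirichletCharacter ℂ f) :
    (DirichletCharacter.changeLevel h ψ) ((a : ZMod m)⁻¹) = ψ ((a : ZMod f)⁻¹) := by
  rw [char_inv m a ha, char_inv f a (Nat.Coprime.coprime_dvd_right h ha)]
  have h1 := DirichletCharacter.changeLevel_eq_cast_of_dvd' ψ h (a := (a : ℤ))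
        (by exact_mod_cast Nat.isCoprime_iff_coprime.mpr ha)
  push_cast at h1
  rw [h1]

/-- the terms not coprime to the modulus -/
noncomputable def ncs (M m : ℕ) (o : ℝ → ℝ) (f : ℕ) (ψ : DirichletCharacter ℂ f) : ℂ :=
  ∑ n ∈ (Icc 1 M).filter (fun n => ¬ n.Coprime m),
    ((ArithmeticFunction.vonMangoldt n : ℝ) : ℂ) * ψ (n : ZMod f) * ((o n : ℝ) : ℂ)

lemma SS_changeLevel (M m f : ℕ) (o : ℝ → ℝ) (h : f ∣ m) (ψ : DirichletCharacter ℂ f) :
    Pool.Agent.D0H44.FR.SS M o m (DirichletCharacter.changeLevel h ψ) =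
      Pool.Agent.D0H44.FR.SS M o f ψ - ncs M m o f ψ := by
  unfold Pool.Agent.D0H44.FR.SS ncs
  rw [sum_filter, ← sum_sub_distrib]
  apply sum_congr rfl
  intro n _
  by_cases hn : n.Coprime m
  · have h1 := DirichletCharacter.changeLevel_eq_cast_of_dvd' ψ h (a := (n : ℤ))
      (by exact_mod_cast Nat.isCoprime_iff_coprime.mpr hn)
    push_cast at h1
    rw [h1, if_neg (not_not.mpr hn), sub_zero]
  · rw [MulChar.map_nonunit _ (fun hu => hn ((ZMod.isUnit_iff_coprime n _).mp hu)), if_pos hn]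
    ring

lemma ncs_bound (M m f : ℕ) (o : ℝ → ℝ) (hm : 1 ≤ m) (ho : ∀ y, 0 ≤ o y ∧ o y ≤ 1)
    (ψ : DirichletCharacter ℂ f) :
    ‖ncs M m o f ψ‖ ≤ m.primeFactors.card * Real.log M := by
  unfold ncs
  refine (norm_sum_le _ _).trans ?_
  refine le_trans ?_ (sum_not_coprime M m hm)
  apply sum_le_sum
  intro n _
  have h2 := ψ.norm_le_one (n : ZMod f)
  have h3 : (0 : ℝ) ≤ ArithmeticFunction.vonMangoldt n := ArithmeticFunction.vonMangoldt_nonneg
  rw [norm_mul, norm_mul, Complex.norm_real, Complex.norm_real, Real.norm_eq_abs,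
    Real.norm_eq_abs, abs_of_nonneg h3, abs_of_nonneg (ho n).1]
  calc ArithmeticFunction.vonMangoldt n * ‖ψ (n : ZMod f)‖ * o n
      ≤ ArithmeticFunction.vonMangoldt n * 1 * 1 :=
        mul_le_mul (mul_le_mul_of_nonneg_left h2 h3) (ho n).2 (ho n).1 (by linarith)
    _ = _ := by ring

open Classical in
lemma key (M m c : ℕ) (o : ℝ → ℝ) [NeZero m] (hc : c.Coprime m) :
    ((∑ n ∈ (Icc 1 M).filter (fun n => n ≡ c [MOD m]),
      ArithmeticFunction.vonMangoldt n * o n : ℝ) : ℂ) =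
      (1 / (Nat.totient m : ℂ)) * ∑ χ : DirichletCharacter ℂ m,
        χ ((c : ZMod m)⁻¹) * Pool.Agent.D0H44.FR.SS M o m χ := by
  have hcu : IsUnit (c : ZMod m) := (ZMod.isUnit_iff_coprime c m).mpr hc
  have h0 : (Nat.totient m : ℂ) ≠ 0 := by
    have := Nat.totient_pos.mpr (NeZero.pos m)
    exact_mod_cast this.ne'
  unfold Pool.Agent.D0H44.FR.SS
  have h1 : ∑ χ : DirichletCharacter ℂ m, χ ((c : ZMod m)⁻¹) *
      ∑ n ∈ Icc 1 M, ((ArithmeticFunction.vonMangoldt n : ℝ) : ℂ) * χ (n : ZMod m) *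
        ((o n : ℝ) : ℂ) =
      ∑ n ∈ Icc 1 M, ((ArithmeticFunction.vonMangoldt n * o n : ℝ) : ℂ) *
        ∑ χ : DirichletCharacter ℂ m, χ ((c : ZMod m)⁻¹) * χ (n : ZMod m) := by
    simp_rw [mul_sum]
    rw [sum_comm]
    apply sum_congr rfl
    intro n _
    apply sum_congr rfl
    intro χ _
    push_cast
    ring
  rw [h1, sum_filter, Complex.ofReal_sum, mul_sum]
  apply sum_congr rfl
  intro n _
  rw [DirichletCharacter.sum_char_inv_mul_char_eq ℂ hcu (n : ZMod m)]
  have h5 : (n ≡ c [MOD m]) ↔ ((c : ZMod m) = (n : ZMod m)) := by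
    rw [← ZMod.natCast_eq_natCast_iff, eq_comm]
  by_cases h6 : n ≡ c [MOD m]
  · rw [if_pos h6, if_pos (h5.mp h6)]
    field_simp
  · rw [if_neg h6, if_neg (fun h => h6 (h5.mpr h))]
    simp

/-- one modulus: everything in terms of the primitive characters -/
lemma main (M m c : ℕ) (o : ℝ → ℝ) (hm : 1 ≤ m) (hc : c.Coprime m)
    (ho : ∀ y, 0 ≤ o y ∧ o y ≤ 1) :
    ‖((∑ n ∈ (Icc 1 M).filter (fun n => n ≡ c [MOD m]),
      ArithmeticFunction.vonMangoldt n * o n : ℝ) : ℂ) -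
      (1 / (Nat.totient m : ℂ)) * ∑ f ∈ m.divisors, ∑ ψ ∈ Prim f,
        ψ ((c : ZMod f)⁻¹) * Pool.Agent.D0H44.FR.SS M o f ψ‖ ≤
      m.primeFactors.card * Real.log M := by
  classical
  have : NeZero m := ⟨by omega⟩
  have hlog : 0 ≤ Real.log M := Real.log_natCast_nonneg M
  set E := (m.primeFactors.card : ℝ) * Real.log M with hE
  have hE0 : 0 ≤ E := by positivity
  have hφ : (0:ℝ) < Nat.totient m := by exact_mod_cast Nat.totient_pos.mpr (by omega)
  have h10 := sum_char_eq m (fun χ => χ ((c : ZMod m)⁻¹) * Pool.Agent.D0H44.FR.SS M o m χ)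
    (fun f ψ => ψ ((c : ZMod f)⁻¹) * (Pool.Agent.D0H44.FR.SS M o f ψ - ncs M m o f ψ))
    (by
      intro f h ψ
      rw [char_changeLevel m f c h hc ψ, SS_changeLevel M m f o h ψ])
  have h11 := sum_char_eq m (fun _ => 1) (fun _ _ => 1) (fun _ _ _ => rfl)
  have h12 : ∑ f ∈ m.divisors, ((Prim f).card : ℝ) = Nat.totient m := by
    have e1 : ((∑ f ∈ m.divisors, ((Prim f).card : ℝ) : ℝ) : ℂ) =
        ((((univ : Finset (DirichletCharacter ℂ m)).card : ℝ)) : ℂ) := by
      rw [Complex.ofReal_sum]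
      rw [sum_const, nsmul_eq_mul, mul_one] at h11
      push_cast
      rw [h11]
      apply sum_congr rfl
      intro f _
      rw [sum_const, nsmul_eq_mul, mul_one]
    have e2 := Complex.ofReal_injective e1
    rw [e2]
    have h4 := DirichletCharacter.card_eq_totient_of_hasEnoughRootsOfUnity ℂ m
    rw [← h4, Nat.card_eq_fintype_card]
    rfl
  rw [key M m c o hc, h10, ← mul_sub, norm_mul]
  have h14 : ‖(1 / (Nat.totient m : ℂ))‖ = 1 / (Nat.totient m : ℝ) := by
    rw [norm_div, norm_one, Complex.norm_natCast]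
  rw [h14, ← sum_sub_distrib]
  have h15 : ‖∑ f ∈ m.divisors, (∑ ψ ∈ Prim f, ψ ((c : ZMod f)⁻¹) *
        (Pool.Agent.D0H44.FR.SS M o f ψ - ncs M m o f ψ) -
        ∑ ψ ∈ Prim f, ψ ((c : ZMod f)⁻¹) * Pool.Agent.D0H44.FR.SS M o f ψ)‖ ≤
      Nat.totient m * E := by
    calc _ ≤ ∑ f ∈ m.divisors, ∑ ψ ∈ Prim f, E := by
          refine (norm_sum_le _ _).trans (sum_le_sum fun f _ => ?_)
          rw [← sum_sub_distrib]
          refine (norm_sum_le _ _).trans (sum_le_sum fun ψ _ => ?_)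
          have e1 : ψ ((c : ZMod f)⁻¹) *
              (Pool.Agent.D0H44.FR.SS M o f ψ - ncs M m o f ψ) -
              ψ ((c : ZMod f)⁻¹) * Pool.Agent.D0H44.FR.SS M o f ψ =
              -(ψ ((c : ZMod f)⁻¹) * ncs M m o f ψ) := by ring
          rw [e1, norm_neg, norm_mul]
          have i1 : ‖ψ ((c : ZMod f)⁻¹)‖ ≤ 1 := ψ.norm_le_one _
          have i2 := ncs_bound M m f o hm ho ψ
          calc _ ≤ 1 * E := mul_le_mul i1 i2 (norm_nonneg _) zero_le_one
            _ = E := one_mul _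
      _ = (∑ f ∈ m.divisors, ((Prim f).card : ℝ)) * E := by
          rw [sum_mul]
          apply sum_congr rfl
          intro f _
          rw [sum_const, nsmul_eq_mul]
      _ = _ := by rw [h12]
  calc _ ≤ 1 / (Nat.totient m : ℝ) * (Nat.totient m * E) :=
        mul_le_mul_of_nonneg_left h15 (by positivity)
    _ = E := by
        have : (Nat.totient m : ℝ) ≠ 0 := hφ.ne'
        field_simp

theorem t_CH : S_CH := by
  intro M l r c o hM hl hr hrl hc ho
  have hlog : 0 ≤ Real.log M := Real.log_natCast_nonneg M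
  have hr1 : 1 < r := hr.one_lt
  have hlr : 1 ≤ l * r := Nat.mul_pos (by omega) (by omega)
  have hcl : c.Coprime l := Nat.Coprime.coprime_dvd_right (dvd_mul_right l r) hc
  have h1 := main M (l * r) c o hlr hc ho
  have h2 := main M l c o hl hcl ho
  set T : ℕ → ℂ := fun f => ∑ ψ ∈ Prim f,
        ψ ((c : ZMod f)⁻¹) * Pool.Agent.D0H44.FR.SS M o f ψ with hT
  set A : ℝ := ∑ n ∈ (Icc 1 M).filter (fun n => n ≡ c [MOD (l * r)]),
      ArithmeticFunction.vonMangoldt n * o n with hA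
  set B : ℝ := ∑ n ∈ (Icc 1 M).filter (fun n => n ≡ c [MOD l]),
      ArithmeticFunction.vonMangoldt n * o n with hB
  set E : ℝ := ((l * r).primeFactors.card : ℝ) * Real.log M with hE
  have hcop : l.Coprime r := ((Nat.Prime.coprime_iff_not_dvd hr).mpr hrl).symm
  have htot : Nat.totient (l * r) = Nat.totient l * (r - 1) := by
    rw [Nat.totient_mul hcop, Nat.totient_prime hr]
  have htotc : (Nat.totient (l * r) : ℂ) = (Nat.totient l : ℂ) * ((r : ℂ) - 1) := by
    rw [htot, Nat.cast_mul, Nat.cast_sub hr1.le, Nat.cast_one]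
  have hφ : (0:ℝ) < Nat.totient l := by exact_mod_cast Nat.totient_pos.mpr (by omega)
  have hφc : (Nat.totient l : ℂ) ≠ 0 := by
    have : (Nat.totient l) ≠ 0 := (Nat.totient_pos.mpr (by omega)).ne'
    exact_mod_cast this
  have hr1r : (1 : ℝ) ≤ (r : ℝ) - 1 := by
    have : (2 : ℝ) ≤ r := by exact_mod_cast hr.two_le
    linarith
  have hr1c : ((r : ℂ) - 1) ≠ 0 := by
    have h3 : (((r : ℝ) - 1 : ℝ) : ℂ) ≠ 0 := by
      rw [Complex.ofReal_ne_zero]
      linarith
    push_cast at h3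
    exact h3
  have hEl : (l.primeFactors.card : ℝ) * Real.log M ≤ E := by
    apply mul_le_mul_of_nonneg_right _ hlog
    have : l.primeFactors ⊆ (l * r).primeFactors := Nat.primeFactors_mono (dvd_mul_right l r)
      (by omega)
    exact_mod_cast card_le_card this
  have hE0 : 0 ≤ E := by positivity
  have hdiv : l.divisors = (l * r).divisors.filter (fun f => f ∣ l) := by
    ext f
    rw [mem_filter, Nat.mem_divisors, Nat.mem_divisors]
    constructor
    · rintro ⟨h, h'⟩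
      exact ⟨⟨dvd_mul_of_dvd_left h r, by omega⟩, h⟩
    · rintro ⟨_, h⟩
      exact ⟨h, by omega⟩
  have hsplit : ∑ f ∈ (l * r).divisors, T f = ∑ f ∈ l.divisors, T f +
      ∑ f ∈ (l * r).divisors.filter (fun f => ¬ f ∣ l), T f := by
    rw [hdiv, sum_filter_add_sum_filter_not]
  have hfin : ((A - 1 / ((r : ℝ) - 1) * B : ℝ) : ℂ) =
      (((A : ℝ) : ℂ) - (1 / (Nat.totient (l * r) : ℂ)) * ∑ f ∈ (l * r).divisors, T f) -
      (1 / ((r : ℂ) - 1)) * (((B : ℝ) : ℂ) - (1 / (Nat.totient l : ℂ)) * ∑ f ∈ l.divisors, T f) +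
      (1 / (Nat.totient (l * r) : ℂ)) *
        ∑ f ∈ (l * r).divisors.filter (fun f => ¬ f ∣ l), T f := by
    rw [hsplit, htotc]
    push_cast
    field_simp
    ring
  have hb1 : ‖(1 / ((r : ℂ) - 1)) *
      (((B : ℝ) : ℂ) - (1 / (Nat.totient l : ℂ)) * ∑ f ∈ l.divisors, T f)‖ ≤ E := by
    rw [norm_mul]
    have e1 : ‖(1 / ((r : ℂ) - 1))‖ ≤ 1 := by
      have e2 : (1 / ((r : ℂ) - 1)) = ((1 / ((r : ℝ) - 1) : ℝ) : ℂ) := by push_cast; rfl
      rw [e2, Complex.norm_real, Real.norm_eq_abs, abs_of_nonneg (by positivity)]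
      rw [div_le_one (by linarith)]
      exact hr1r
    calc _ ≤ 1 * E := mul_le_mul e1 (h2.trans hEl) (norm_nonneg _) zero_le_one
      _ = E := one_mul _
  have hb2 : ‖(1 / (Nat.totient (l * r) : ℂ)) *
        ∑ f ∈ (l * r).divisors.filter (fun f => ¬ f ∣ l), T f‖ ≤
      1 / (Nat.totient (l * r) : ℝ) * ∑ f ∈ (l * r).divisors.filter (fun f => ¬ f ∣ l),
        ∑ ψ ∈ Prim f, ‖Pool.Agent.D0H44.FR.SS M o f ψ‖ := by
    rw [norm_mul, norm_div, norm_one, Complex.norm_natCast]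
    apply mul_le_mul_of_nonneg_left _ (by positivity)
    refine (norm_sum_le _ _).trans (sum_le_sum fun f _ => ?_)
    refine (norm_sum_le _ _).trans (sum_le_sum fun ψ _ => ?_)
    rw [norm_mul]
    calc _ ≤ 1 * ‖Pool.Agent.D0H44.FR.SS M o f ψ‖ :=
          mul_le_mul_of_nonneg_right (ψ.norm_le_one _) (norm_nonneg _)
      _ = _ := one_mul _
  rw [← Real.norm_eq_abs, ← Complex.norm_real, hfin]
  refine (norm_add_le _ _).trans ?_
  have hb3 := norm_sub_le (((A : ℝ) : ℂ) - (1 / (Nat.totient (l * r) : ℂ)) *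
    ∑ f ∈ (l * r).divisors, T f) ((1 / ((r : ℂ) - 1)) *
      (((B : ℝ) : ℂ) - (1 / (Nat.totient l : ℂ)) * ∑ f ∈ l.divisors, T f))
  linarith

end Pool.Agent.D0H51.FR.CH
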