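import Mathlib
import Pool.Agent.D0H44.FR.Stm

/-! Project FR, package IB: integration by parts and Cauchy-Schwarz. -/

open Finset MeasureTheory

namespace Pool.Agent.D0H51.FR

open Pool.Agent.D0H44.FR
open Pool.Agent.D0H44.EM (ps Er)

theorem ps_eq (q a M : ℕ) (x : ℝ) (hx : 0 ≤ x) (hM : x ≤ M) :
    ps q a x = ∑ n ∈ (Icc 1 M).filter (fun n => n ≡ a [MOD q]),
      ArithmeticFunction.vonMangoldt n * (if (n : ℝ) ≤ x then 1 else 0) := by
  unfold ps
  simp_rw [mul_ite, mul_one, mul_zero]
  rw [← sum_filter]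
  apply sum_congr _ fun _ _ => rfl
  ext n
  simp only [mem_filter, mem_Icc]
  constructor
  · rintro ⟨⟨h1, h2⟩, h3⟩
    have h4 := (Nat.le_floor_iff hx).1 h2
    refine ⟨⟨⟨h1, ?_⟩, h3⟩, h4⟩
    exact_mod_cast h4.trans hM
  · rintro ⟨⟨⟨h1, h2⟩, h3⟩, h4⟩
    exact ⟨⟨h1, (Nat.le_floor_iff hx).2 h4⟩, h3⟩

/-- the derivative of `w (u / x)` -/
noncomputable def gg (x u : ℝ) : ℝ := w1 (u / x) / x

lemma gg_cont (x : ℝ) : Continuous (gg x) := by
  have h1 : Continuous w1 := by
    unfold w1
    fun_prop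
  unfold gg
  exact (h1.comp (continuous_id.div_const x)).div_const x

lemma w_cont : Continuous w := by
  unfold w
  fun_prop

lemma gg_int (hW : S_W) (x : ℝ) (s t : ℝ) :
    ∫ u in s..t, gg x u = w (t / x) - w (s / x) := by
  apply intervalIntegral.integral_eq_sub_of_hasDerivAt (f := fun u => w (u / x))
  · intro u _
    have h1 := (hW.1 (u / x)).comp u ((hasDerivAt_id u).div_const x)
    refine h1.congr_deriv ?_
    unfold gg
    ring
  · exact (gg_cont x).intervalIntegrable _ _

lemma ind_ii (x v : ℝ) (s t : ℝ) :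
    IntervalIntegrable (fun u => if v ≤ u then gg x u else 0) volume s t := by
  have hset : (fun u => if v ≤ u then gg x u else 0) = (Set.Ici v).indicator (gg x) := by
    funext u
    rw [Set.indicator_apply]
    rfl
  rw [hset, intervalIntegrable_iff]
  have h := (gg_cont x).intervalIntegrable (μ := volume) s t
  rw [intervalIntegrable_iff] at h
  exact h.indicator measurableSet_Ici

lemma ind_int (hW : S_W) (x : ℝ) (hx : 0 < x) (v : ℝ) :
    ∫ u in x..(2 * x), (if v ≤ u then gg x u else 0) = -w (v / x) := by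
  have hle : x ≤ 2 * x := by linarith
  have hw2 : w (2 * x / x) = 0 := by
    rw [mul_div_assoc, div_self hx.ne', mul_one]
    exact (hW.2.2.2.2.2.2.1 2 (Or.inr le_rfl)).1
  have hset : (fun u => if v ≤ u then gg x u else 0) = (Set.Ici v).indicator (gg x) := by
    funext u
    rw [Set.indicator_apply]
    rfl
  rw [hset, intervalIntegral.integral_of_le hle, setIntegral_indicator measurableSet_Ici]
  rcases le_or_gt v x with a1 | a1
  · have e : Set.Ioc x (2 * x) ∩ Set.Ici v = Set.Ioc x (2 * x) := by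
      ext u
      simp only [Set.mem_inter_iff, Set.mem_Ioc, Set.mem_Ici]
      constructor
      · rintro ⟨h, -⟩; exact h
      · intro h; exact ⟨h, by linarith [h.1]⟩
    rw [e, ← intervalIntegral.integral_of_le hle, gg_int hW, hw2, div_self hx.ne']
    have h1 : w 1 = 0 := (hW.2.2.2.2.2.2.1 1 (Or.inl le_rfl)).1
    have h2 : w (v / x) = 0 := (hW.2.2.2.2.2.2.1 _ (Or.inl (by
      rw [div_le_one hx]
      exact a1))).1
    rw [h1, h2]
    simp
  rcases le_or_gt v (2 * x) with a2 | a2
  · have e : Set.Ioc x (2 * x) ∩ Set.Ici v = Set.Icc v (2 * x) := by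
      ext u
      simp only [Set.mem_inter_iff, Set.mem_Ioc, Set.mem_Ici, Set.mem_Icc]
      constructor
      · rintro ⟨h, h'⟩; exact ⟨h', h.2⟩
      · rintro ⟨h, h'⟩; exact ⟨⟨by linarith, h'⟩, h⟩
    rw [e, integral_Icc_eq_integral_Ioc, ← intervalIntegral.integral_of_le a2, gg_int hW, hw2]
    ring
  · have e : Set.Ioc x (2 * x) ∩ Set.Ici v = ∅ := by
      ext u
      simp only [Set.mem_inter_iff, Set.mem_Ioc, Set.mem_Ici, Set.mem_empty_iff_false, iff_false]
      rintro ⟨h, h'⟩
      linarith [h.2]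
    rw [e, setIntegral_empty]
    have h2 : w (v / x) = 0 := (hW.2.2.2.2.2.2.1 _ (Or.inr (by
      rw [le_div_iff₀ hx]
      exact a2.le))).1
    rw [h2]
    simp

lemma u_int (hW : S_W) (x : ℝ) (hx : 0 < x) :
    ∫ u in x..(2 * x), u * gg x u = -∫ u in x..(2 * x), w (u / x) := by
  have h1 : ∫ u in x..(2 * x), (w (u / x) + u * gg x u) = 2 * x * w (2 * x / x) - x * w (x / x) := by
    apply intervalIntegral.integral_eq_sub_of_hasDerivAt (f := fun u => u * w (u / x))
    · intro u _
      have e1 := (hW.1 (u / x)).comp u ((hasDerivAt_id u).div_const x)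
      have e2 : HasDerivAt (fun u => u * w (u / x)) (1 * w (u / x) + u * (w1 (u / x) * (1 / x))) u :=
        (hasDerivAt_id u).mul e1
      refine e2.congr_deriv ?_
      unfold gg
      ring
    · apply Continuous.intervalIntegrable
      exact (w_cont.comp (continuous_id.div_const x)).add (continuous_id.mul (gg_cont x))
  have hw2 : w (2 * x / x) = 0 := by
    rw [mul_div_assoc, div_self hx.ne', mul_one]
    exact (hW.2.2.2.2.2.2.1 2 (Or.inr le_rfl)).1
  have hw1 : w (x / x) = 0 := by
    rw [div_self hx.ne']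
    exact (hW.2.2.2.2.2.2.1 1 (Or.inl le_rfl)).1
  rw [hw2, hw1, intervalIntegral.integral_add] at h1
  · linarith
  · exact (w_cont.comp (continuous_id.div_const x)).intervalIntegrable _ _
  · exact (continuous_id.mul (gg_cont x)).intervalIntegrable _ _

theorem t_IB (hW : S_W) : S_IB := by
  intro x q a M hx hq hM
  have hx0 : 0 < x := by linarith
  have hle : x ≤ 2 * x := by linarith
  have e1 : ∫ u in x..(2 * x), Er q a u * (w1 (u / x) / x) =
      ∫ u in x..(2 * x), ((∑ n ∈ (Icc 1 M).filter (fun n => n ≡ a [MOD q]),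
        ArithmeticFunction.vonMangoldt n * (if (n : ℝ) ≤ u then gg x u else 0)) -
        (1 / (Nat.totient q : ℝ)) * (u * gg x u)) := by
    apply intervalIntegral.integral_congr
    intro u hu
    rw [Set.uIcc_of_le hle, Set.mem_Icc] at hu
    simp only
    unfold Er
    rw [ps_eq q a M u (by linarith [hu.1]) (by linarith [hu.2])]
    rw [sub_mul, sum_mul]
    congr 1
    · apply sum_congr rfl
      intro n _
      unfold gg
      split_ifs <;> simp
    · unfold gg
      ring
  have hid : IntervalIntegrable (fun u : ℝ => u * gg x u) volume x (2 * x) :=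
    (continuous_id.mul (gg_cont x)).intervalIntegrable _ _
  rw [e1, intervalIntegral.integral_sub, intervalIntegral.integral_finsetSum,
    intervalIntegral.integral_const_mul, u_int hW x hx0]
  · simp_rw [intervalIntegral.integral_const_mul, ind_int hW x hx0]
    unfold PP
    simp only [mul_neg, sum_neg_distrib, sub_neg_eq_add]
  · intro n _
    exact (ind_ii x _ _ _).const_mul _
  · have hs := IntervalIntegrable.sum ((Icc 1 M).filter (fun n => n ≡ a [MOD q]))
      (f := fun (n : ℕ) (u : ℝ) => ArithmeticFunction.vonMangoldt n *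
        (if (n : ℝ) ≤ u then gg x u else 0)) (μ := volume) (a := x) (b := 2 * x)
      (fun n _ => (ind_ii x _ _ _).const_mul _)
    have e : (fun u : ℝ => ∑ n ∈ (Icc 1 M).filter (fun n => n ≡ a [MOD q]),
        ArithmeticFunction.vonMangoldt n * (if (n : ℝ) ≤ u then gg x u else 0)) =
        ∑ n ∈ (Icc 1 M).filter (fun n => n ≡ a [MOD q]), fun u : ℝ =>
        ArithmeticFunction.vonMangoldt n * (if (n : ℝ) ≤ u then gg x u else 0) := by
      funext u
      rw [Finset.sum_apply]
    rw [e]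
    exact hs
  · exact hid.const_mul _

/-- the error term is measurable -/
lemma Er_meas (q a : ℕ) : Measurable (Er q a) := by
  unfold Er ps
  apply Measurable.sub
  · exact (measurable_from_nat (f := fun N : ℕ => ∑ n ∈ (Icc 1 N).filter (fun n => n ≡ a [MOD q]),
      ArithmeticFunction.vonMangoldt n)).comp Nat.measurable_floor
  · exact measurable_id.div_const _

lemma Er_bdd (q a : ℕ) (x : ℝ) (hx : 0 ≤ x) : ∃ K : ℝ, ∀ u ∈ Set.Icc x (2 * x), |Er q a u| ≤ K := by
  refine ⟨∑ n ∈ Icc 1 ⌊2 * x⌋₊, ArithmeticFunction.vonMangoldt n + 2 * x / (Nat.totient q : ℝ),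
    fun u hu => ?_⟩
  rw [Set.mem_Icc] at hu
  unfold Er
  have hu0 : 0 ≤ u := hx.trans hu.1
  have h1 : 0 ≤ ps q a u := sum_nonneg fun n _ => ArithmeticFunction.vonMangoldt_nonneg
  have h2 : ps q a u ≤ ∑ n ∈ Icc 1 ⌊2 * x⌋₊, ArithmeticFunction.vonMangoldt n := by
    unfold ps
    apply sum_le_sum_of_subset_of_nonneg
    · intro n hn
      rw [mem_filter, mem_Icc] at hn
      rw [mem_Icc]
      exact ⟨hn.1.1, hn.1.2.trans (Nat.floor_mono hu.2)⟩
    · intro n _ _
      exact ArithmeticFunction.vonMangoldt_nonneg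
  have h3 : 0 ≤ u / (Nat.totient q : ℝ) := by positivity
  have h4 : u / (Nat.totient q : ℝ) ≤ 2 * x / (Nat.totient q : ℝ) := by
    gcongr
    exact hu.2
  rw [abs_le]
  constructor <;> linarith

lemma Er_ii (q a : ℕ) (x : ℝ) (hx : 0 ≤ x) (g : ℝ → ℝ) (hg : Continuous g) :
    IntervalIntegrable (fun u => Er q a u * g u) volume x (2 * x) ∧
    IntervalIntegrable (fun u => Er q a u ^ 2) volume x (2 * x) := by
  obtain ⟨K, hK⟩ := Er_bdd q a x hx
  obtain ⟨K', hK'⟩ := (isCompact_Icc (a := x) (b := 2 * x)).exists_bound_of_continuousOn hg.continuousOn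
  have hle : x ≤ 2 * x := by linarith
  have hK0 : 0 ≤ K := (abs_nonneg _).trans (hK x (Set.left_mem_Icc.2 hle))
  constructor
  · rw [intervalIntegrable_iff_integrableOn_Icc_of_le hle]
    refine Measure.integrableOn_of_bounded (M := K * K') measure_Icc_lt_top.ne
      ((Er_meas q a).mul hg.measurable).aestronglyMeasurable ?_
    refine (ae_restrict_iff' measurableSet_Icc).2 (Filter.Eventually.of_forall fun u hu => ?_)
    rw [norm_mul]
    exact mul_le_mul (hK u hu) (hK' u hu) (norm_nonneg _) hK0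
  · rw [intervalIntegrable_iff_integrableOn_Icc_of_le hle]
    refine Measure.integrableOn_of_bounded (M := K ^ 2) measure_Icc_lt_top.ne
      ((Er_meas q a).pow_const 2).aestronglyMeasurable ?_
    refine (ae_restrict_iff' measurableSet_Icc).2 (Filter.Eventually.of_forall fun u hu => ?_)
    rw [norm_pow]
    exact pow_le_pow_left₀ (norm_nonneg _) (hK u hu) 2

lemma one_cs (hW : S_W) (q a : ℕ) (x : ℝ) (hx : 1 ≤ x) :
    (∫ u in x..(2 * x), Er q a u * (w1 (u / x) / x)) ^ 2 ≤
      (∫ u in x..(2 * x), Er q a u ^ 2) * (144 / x) := by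
  have hx0 : 0 < x := by linarith
  have hle : x ≤ 2 * x := by linarith
  set B : ℝ := ∫ u in x..(2 * x), Er q a u * (w1 (u / x) / x) with hB
  obtain ⟨h1, h2⟩ := Er_ii q a x hx0.le (gg x) (gg_cont x)
  have hg2 : IntervalIntegrable (fun u => gg x u ^ 2) volume x (2 * x) :=
    ((gg_cont x).pow 2).intervalIntegrable _ _
  -- the square
  have h3 : ∀ t : ℝ, 0 ≤ (∫ u in x..(2 * x), Er q a u ^ 2) - 2 * t * B +
      t ^ 2 * ∫ u in x..(2 * x), gg x u ^ 2 := by
    intro t
    have e1 : 0 ≤ ∫ u in x..(2 * x), (Er q a u - t * gg x u) ^ 2 :=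
      intervalIntegral.integral_nonneg hle fun u _ => sq_nonneg _
    have e2 : ∀ u, (Er q a u - t * gg x u) ^ 2 =
        Er q a u ^ 2 - 2 * t * (Er q a u * gg x u) + t ^ 2 * gg x u ^ 2 := fun u => by ring
    simp only [e2] at e1
    rw [intervalIntegral.integral_add (h2.sub (h1.const_mul _)) (hg2.const_mul _),
      intervalIntegral.integral_sub h2 (h1.const_mul _), intervalIntegral.integral_const_mul,
      intervalIntegral.integral_const_mul] at e1
    exact e1
  have h4 : ∫ u in x..(2 * x), gg x u ^ 2 ≤ 144 / x := by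
    have e1 : ∫ u in x..(2 * x), gg x u ^ 2 ≤ ∫ _u in x..(2 * x), 144 / x ^ 2 := by
      apply intervalIntegral.integral_mono_on hle hg2 (by simp)
      intro u _
      unfold gg
      rw [div_pow]
      gcongr
      have := hW.2.2.2.2.1 (u / x)
      rw [← sq_abs]
      nlinarith [abs_nonneg (w1 (u / x))]
    rw [intervalIntegral.integral_const, smul_eq_mul] at e1
    refine e1.trans (le_of_eq ?_)
    field_simp
    ring
  have h5 := h3 (B * x / 144)
  have h6 : (B * x / 144) ^ 2 * ∫ u in x..(2 * x), gg x u ^ 2 ≤ (B * x / 144) ^ 2 * (144 / x) :=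
    mul_le_mul_of_nonneg_left h4 (sq_nonneg _)
  have h7 : (B * x / 144) ^ 2 * (144 / x) = B ^ 2 * x / 144 := by
    field_simp
  have h8 : B ^ 2 * x / 144 ≤ ∫ u in x..(2 * x), Er q a u ^ 2 := by nlinarith
  have h9 : B ^ 2 = B ^ 2 * x / 144 * (144 / x) := by
    field_simp
  rw [h9]
  exact mul_le_mul_of_nonneg_right h8 (by positivity)

theorem t_CS (hW : S_W) : S_CS := by
  intro x a S c hx _
  have hx0 : 0 < x := by linarith
  have hle : x ≤ 2 * x := by linarith
  have h1 := Finset.sum_mul_sq_le_sq_mul_sq S c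
    (fun q => ∫ u in x..(2 * x), Er q a u * (w1 (u / x) / x))
  have h2 : ∑ q ∈ S, (∫ u in x..(2 * x), Er q a u * (w1 (u / x) / x)) ^ 2 ≤
      (∑ q ∈ S, ∫ u in x..(2 * x), Er q a u ^ 2) * (144 / x) := by
    rw [sum_mul]
    exact sum_le_sum fun q _ => one_cs hW q a x hx
  have h3 : 0 ≤ ∑ q ∈ S, c q ^ 2 := sum_nonneg fun q _ => sq_nonneg _
  calc _ ≤ _ := h1
    _ ≤ (∑ q ∈ S, c q ^ 2) * ((∑ q ∈ S, ∫ u in x..(2 * x), Er q a u ^ 2) * (144 / x)) := by gcongr
    _ = _ := by ring

end Pool.Agent.D0H51.FR
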