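import Mathlib
import Pool.Agent.D0H44.FR.Stm
import Pool.Agent.D0H44.EL.Count

/-! Project FR, package MN: the prime number theorem with the weight `om`. -/

open Finset

namespace Pool.Agent.D0H51.FR

open Pool.Agent.D0H44.EL Pool.Agent.D0H44.FR

theorem t_MN (hW : S_W) : S_MN := by
  obtain ⟨-, -, -, hw0, -, -, -, hw4⟩ := hW
  obtain ⟨C, hC0, hC⟩ := psi_bds (1 / 1000) (by norm_num)
  refine ⟨max 1 (100 * C), le_max_left _ _, fun x Q a M k hx hM ha hk1 hk2 => ?_⟩
  rw [max_le_iff] at hx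
  obtain ⟨hx1, hxC⟩ := hx
  have hx0 : 0 < x := by linarith
  have hkQ : 0 < (k : ℝ) * Q := by nlinarith
  have hom0 : ∀ n : ℕ, 0 ≤ om x Q a k n := fun n => mul_nonneg (hw0 _).1 (hw0 _).1
  have hom : ∀ n : ℕ, 7 / 5 * x ≤ n → (n : ℝ) ≤ 8 / 5 * x → 1 / 16 ≤ om x Q a k n := by
    intro n h1 h2
    have ha0 : (0 : ℝ) ≤ a := Nat.cast_nonneg _
    have h3 : 1 / 4 ≤ w ((n : ℝ) / x) := by
      apply hw4
      · rw [le_div_iff₀ hx0]
        linarith
      · rw [div_le_iff₀ hx0]
        linarith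
    have h4 : 1 / 4 ≤ w (((n : ℝ) - a) / ((k : ℝ) * Q)) := by
      apply hw4
      · rw [le_div_iff₀ hkQ]
        linarith
      · rw [div_le_iff₀ hkQ]
        linarith
    unfold om
    nlinarith
  set A : ℕ := ⌊7 / 5 * x⌋₊ with hA
  set B : ℕ := ⌊8 / 5 * x⌋₊ with hB
  have hAB : A ≤ B := Nat.floor_mono (by linarith)
  have hBM : B ≤ M := by
    have h1 : (B : ℝ) ≤ 8 / 5 * x := Nat.floor_le (by positivity)
    have h2 : (B : ℝ) ≤ M := by linarith
    exact_mod_cast h2
  have hpsi : Chebyshev.psi (8 / 5 * x) - Chebyshev.psi (7 / 5 * x) =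
      ∑ n ∈ Ioc A B, ArithmeticFunction.vonMangoldt n := by
    unfold Chebyshev.psi
    rw [← hA, ← hB, sub_eq_iff_eq_add, ← sum_union]
    · congr 1
      ext n
      simp only [mem_union, mem_Ioc]
      omega
    · rw [disjoint_left]
      intro n h1 h2
      rw [mem_Ioc] at h1 h2
      omega
  have h1 := (hC (8 / 5 * x) (by positivity)).1
  have h2 := (hC (7 / 5 * x) (by positivity)).2
  have h3 : ∑ n ∈ Ioc A B, ArithmeticFunction.vonMangoldt n * (1 / 16) ≤
      ∑ n ∈ Icc 1 M, ArithmeticFunction.vonMangoldt n * om x Q a k n := by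
    refine le_trans (sum_le_sum (f := fun n => ArithmeticFunction.vonMangoldt n * (1 / 16))
      (g := fun n : ℕ => ArithmeticFunction.vonMangoldt n * om x Q a k n) ?_)
      (sum_le_sum_of_subset_of_nonneg ?_ ?_)
    · intro n hn
      rw [mem_Ioc] at hn
      apply mul_le_mul_of_nonneg_left _ ArithmeticFunction.vonMangoldt_nonneg
      apply hom
      · have h4 : 7 / 5 * x < n := by
          rw [hA] at hn
          exact (Nat.floor_lt (by positivity)).1 hn.1
        exact h4.le
      · have h4 : (n : ℝ) ≤ B := by exact_mod_cast hn.2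
        exact h4.trans (Nat.floor_le (by positivity))
    · intro n hn
      rw [mem_Ioc] at hn
      rw [mem_Icc]
      omega
    · intro n _ _
      exact mul_nonneg ArithmeticFunction.vonMangoldt_nonneg (hom0 n)
  rw [← sum_mul, ← hpsi] at h3
  linarith

end Pool.Agent.D0H51.FR
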