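import Mathlib
import Pool.Agent.D0H44.FR.Stm
import Pool.Agent.D0H44.EL.Count

/-! Project FR, package PC: primes in `(K, 1.1 K]`. -/

open Finset

namespace Pool.Agent.D0H51.FR

open Pool.Agent.D0H44.EL

theorem t_PC : Pool.Agent.D0H44.FR.S_PC := by
  obtain ⟨C, hC0, hC⟩ := psi_bds (1 / 1000) (by norm_num)
  have h1 : ∀ᶠ x : ℝ in Filter.atTop, 2 * Real.sqrt x * Real.log x ≤ x / 32 := by
    have h := (isLittleO_log_rpow_atTop (by norm_num : (0 : ℝ) < 1 / 2)).bound
      (by norm_num : (0 : ℝ) < 1 / 64)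
    filter_upwards [h, Filter.eventually_ge_atTop 1] with x hx hx1
    have hx0 : 0 ≤ x := by linarith
    rw [Real.norm_of_nonneg (Real.log_nonneg hx1), Real.norm_of_nonneg (by positivity),
      ← Real.sqrt_eq_rpow] at hx
    have hs := Real.sq_sqrt hx0
    have hs0 := Real.sqrt_nonneg x
    calc 2 * Real.sqrt x * Real.log x ≤ 2 * Real.sqrt x * (1 / 64 * Real.sqrt x) := by gcongr
      _ = Real.sqrt x ^ 2 / 32 := by ring
      _ = _ := by rw [hs]
  obtain ⟨x₀, hx₀⟩ := Filter.eventually_atTop.1 h1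
  obtain ⟨K₀, hK₀⟩ := exists_nat_ge (max x₀ (100 * (2 * C + 1)))
  refine ⟨max K₀ 10, by have := le_max_right K₀ 10; omega, fun K hK => ?_⟩
  rw [max_le_iff] at hK
  have hKr : (K₀ : ℝ) ≤ K := by exact_mod_cast hK.1
  have hKx : x₀ ≤ K := (le_max_left _ _).trans (hK₀.trans hKr)
  have hKC : 100 * (2 * C + 1) ≤ K := (le_max_right _ _).trans (hK₀.trans hKr)
  have hK10 : (10 : ℝ) ≤ K := by exact_mod_cast hK.2
  set L : ℕ := K + K / 10 with hL
  have hL1 : (11 : ℝ) / 10 * K - 1 ≤ L := by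
    have e1 : K ≤ 10 * (K / 10) + 9 := by omega
    have e2 : (K : ℝ) ≤ 10 * ((K / 10 : ℕ) : ℝ) + 9 := by exact_mod_cast e1
    rw [hL]
    push_cast
    linarith
  have hL2 : (L : ℝ) ≤ 11 / 10 * K := by
    have e1 : 10 * (K / 10) ≤ K := by omega
    have e2 : 10 * ((K / 10 : ℕ) : ℝ) ≤ K := by exact_mod_cast e1
    rw [hL]
    push_cast
    linarith
  have hKL : K ≤ L := by omega
  have g2 := hx₀ L (hKx.trans (by exact_mod_cast hKL))
  have k1 : Chebyshev.theta K ≤ (1 + 1 / 1000) * K + C :=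
    (Chebyshev.theta_le_psi _).trans (hC K (by linarith)).2
  have k2 : (1 - 1 / 1000) * (L : ℝ) - C - 2 * Real.sqrt (L : ℝ) * Real.log (L : ℝ) ≤
      Chebyshev.theta (L : ℝ) := by
    have a1 := Chebyshev.psi_sub_theta_le (x := (L : ℝ)) (by linarith)
    have a2 := (hC (L : ℝ) (by linarith)).1
    linarith
  have k3 : Chebyshev.theta (L : ℝ) - Chebyshev.theta K =
      ∑ p ∈ (Ioc K L).filter Nat.Prime, Real.log p := by
    unfold Chebyshev.theta
    rw [Nat.floor_natCast, Nat.floor_natCast]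
    rw [sub_eq_iff_eq_add]
    rw [← sum_union]
    · congr 1
      ext p
      simp only [mem_filter, mem_union, mem_Ioc]
      constructor
      · rintro ⟨⟨a, b⟩, c⟩
        by_cases hp : p ≤ K
        · exact Or.inr ⟨⟨a, hp⟩, c⟩
        · exact Or.inl ⟨⟨by omega, b⟩, c⟩
      · rintro (⟨⟨a, b⟩, c⟩ | ⟨⟨a, b⟩, c⟩)
        · exact ⟨⟨by omega, b⟩, c⟩
        · exact ⟨⟨a, by omega⟩, c⟩
    · rw [disjoint_left]
      intro p hp hp'
      rw [mem_filter, mem_Ioc] at hp hp'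
      omega
  have k4 : ∑ p ∈ (Ioc K L).filter Nat.Prime, Real.log p ≤
      ((Ioc K L).filter Nat.Prime).card * Real.log ((2 * K : ℕ) : ℝ) := by
    rw [← nsmul_eq_mul, ← sum_const]
    apply sum_le_sum
    intro p hp
    rw [mem_filter, mem_Ioc] at hp
    apply Real.log_le_log
    · exact_mod_cast (by omega : 0 < p)
    · exact_mod_cast (by omega : p ≤ 2 * K)
  rw [← k3] at k4
  linarith

end Pool.Agent.D0H51.FR
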