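import Mathlib
import Pool.Agent.D0H44.FR.Stm

/-! Project FR, package PS: partial summation. -/

open Finset MeasureTheory

namespace Pool.Agent.D0H51.FR

open Pool.Agent.H398R2.BV Pool.Agent.H410R2
open Pool.Agent.D0H44.EL Pool.Agent.D0H44.FR

lemma deriv_zero {o o1 : ℝ → ℝ} {Y : ℝ} (h : ∀ y, HasDerivAt o (o1 y) y) (h0 : ∀ y, Y ≤ y → o y = 0) :
    o1 Y = 0 := by
  have h1 : HasDerivWithinAt o (o1 Y) (Set.Ici Y) Y := (h Y).hasDerivWithinAt
  have h2 : HasDerivWithinAt o 0 (Set.Ici Y) Y := by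
    refine (hasDerivWithinAt_const Y (Set.Ici Y) (0 : ℝ)).congr (fun y hy => h0 y hy) (h0 Y le_rfl)
  exact (uniqueDiffWithinAt_Ici Y).eq_deriv _ h1 h2

lemma o_eq {o o1 o2 : ℝ → ℝ} {Y : ℝ} (h : ∀ y, HasDerivAt o (o1 y) y)
    (h' : ∀ y, HasDerivAt o1 (o2 y) y) (hc : Continuous o2) (h0 : ∀ y, Y ≤ y → o y = 0)
    (n : ℕ) (hn : 1 ≤ n) (hnY : (n : ℝ) ≤ Y) :
    ∫ y in (1 : ℝ)..Y, max (Real.log (y / n)) 0 * (o1 y + y * o2 y) = o n := by
  have hn1 : (1 : ℝ) ≤ n := by exact_mod_cast hn
  have hn0 : (0 : ℝ) < n := by linarith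
  have hc1 : Continuous o1 := continuous_iff_continuousAt.2 fun y => (h' y).continuousAt
  have hh : Continuous fun y => o1 y + y * o2 y := hc1.add (continuous_id.mul hc)
  have hi : ∀ a b : ℝ, 1 ≤ a → 1 ≤ b → IntervalIntegrable
      (fun y : ℝ => max (Real.log (y / n)) 0 * (o1 y + y * o2 y)) volume a b := by
    intro a b ha hb
    apply ContinuousOn.intervalIntegrable
    apply ContinuousOn.mul _ hh.continuousOn
    apply (mx_cont n hn).mono
    intro x hx
    rw [Set.mem_uIcc] at hx
    rcases hx with h | h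
    · exact ha.trans h.1
    · exact hb.trans h.1
  rw [← intervalIntegral.integral_add_adjacent_intervals (hi 1 n le_rfl hn1) (hi n Y hn1 (hn1.trans hnY))]
  have h1 : ∫ y in (1 : ℝ)..n, max (Real.log (y / n)) 0 * (o1 y + y * o2 y) = 0 := by
    have : ∫ y in (1 : ℝ)..n, max (Real.log (y / n)) 0 * (o1 y + y * o2 y) =
        ∫ y in (1 : ℝ)..n, (0 : ℝ) := by
      apply intervalIntegral.integral_congr
      intro y hy
      rw [Set.uIcc_of_le hn1, Set.mem_Icc] at hy
      simp only
      rw [max_eq_right, zero_mul]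
      apply Real.log_nonpos
      · have : 0 ≤ y := by linarith [hy.1]
        positivity
      · rw [div_le_one hn0]
        exact hy.2
    rw [this]
    simp
  have h2 : ∫ y in (n : ℝ)..Y, max (Real.log (y / n)) 0 * (o1 y + y * o2 y) =
      ∫ y in (n : ℝ)..Y, Real.log (y / n) * (o1 y + y * o2 y) := by
    apply intervalIntegral.integral_congr
    intro y hy
    rw [Set.uIcc_of_le hnY, Set.mem_Icc] at hy
    simp only
    rw [max_eq_left]
    apply Real.log_nonneg
    rw [le_div_iff₀ hn0, one_mul]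
    exact hy.1
  have h3 : ∫ y in (n : ℝ)..Y, Real.log (y / n) * (o1 y + y * o2 y) =
      (Real.log (Y / n) * (Y * o1 Y) - o Y) - (Real.log (n / n) * (n * o1 n) - o n) := by
    apply intervalIntegral.integral_eq_sub_of_hasDerivAt
      (f := fun y => Real.log (y / n) * (y * o1 y) - o y)
    · intro y hy
      rw [Set.uIcc_of_le hnY, Set.mem_Icc] at hy
      have hy0 : 0 < y := by linarith [hy.1]
      have e1 : HasDerivAt (fun y : ℝ => Real.log (y / n)) (1 / y) y := by
        have := ((hasDerivAt_id y).div_const (n : ℝ)).log (by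
          simp only [id]
          positivity)
        refine this.congr_deriv ?_
        simp only [id]
        field_simp
      have e2 : HasDerivAt (fun y : ℝ => y * o1 y) (1 * o1 y + y * o2 y) y :=
        (hasDerivAt_id y).mul (h' y)
      have e3 : HasDerivAt (fun y : ℝ => Real.log (y / n) * (y * o1 y) - o y)
          (1 / y * (y * o1 y) + Real.log (y / n) * (1 * o1 y + y * o2 y) - o1 y) y := (e1.mul e2).sub (h y)
      refine e3.congr_deriv ?_
      field_simp
      ring
    · apply ContinuousOn.intervalIntegrable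
      apply ContinuousOn.mul _ hh.continuousOn
      apply ContinuousOn.log
      · exact (continuous_id.div_const _).continuousOn
      · intro y hy
        rw [Set.uIcc_of_le hnY, Set.mem_Icc] at hy
        have hy0 : 0 < y := by linarith [hy.1]
        positivity
  rw [h1, h2, h3, deriv_zero h h0, h0 Y le_rfl, div_self hn0.ne', Real.log_one]
  ring

theorem t_PS : S_PS := by
  intro o o1 o2 C Y M hY hYM hC hd hd1 hc h0 hb f ψ
  have hY0 : 0 < Y := by linarith
  have hc1 : Continuous o1 := continuous_iff_continuousAt.2 fun y => (hd1 y).continuousAt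
  have hh : Continuous fun y => o1 y + y * o2 y := hc1.add (continuous_id.mul hc)
  have hsub : Set.uIcc 1 Y ⊆ Set.Ici (1 : ℝ) := by
    intro x hx
    rw [Set.uIcc_of_le hY] at hx
    exact hx.1
  have hPG : ContinuousOn (PG ⌊Y⌋₊ f ψ) (Set.uIcc 1 Y) := (PG_cont _ _ _).mono hsub
  -- the sum is an integral
  have h1 : Pool.Agent.D0H44.FR.SS M o f ψ = ∫ y in (1 : ℝ)..Y, PG ⌊Y⌋₊ f ψ y * ((o1 y + y * o2 y : ℝ) : ℂ) := by
    have e1 : Pool.Agent.D0H44.FR.SS M o f ψ = ∑ n ∈ Icc 1 ⌊Y⌋₊, ((ArithmeticFunction.vonMangoldt n : ℝ) : ℂ) *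
        ψ (n : ZMod f) * ((o n : ℝ) : ℂ) := by
      unfold Pool.Agent.D0H44.FR.SS
      symm
      apply sum_subset (Icc_subset_Icc_right (Nat.floor_le_of_le hYM))
      intro n hn hn'
      rw [mem_Icc] at hn hn'
      have h1 : ¬ n ≤ ⌊Y⌋₊ := fun h => hn' ⟨hn.1, h⟩
      rw [Nat.le_floor_iff hY0.le] at h1
      rw [h0 n (by linarith)]
      simp
    rw [e1]
    have e2 : ∀ y, PG ⌊Y⌋₊ f ψ y * ((o1 y + y * o2 y : ℝ) : ℂ) = ∑ n ∈ Icc 1 ⌊Y⌋₊,
        ((ArithmeticFunction.vonMangoldt n : ℝ) : ℂ) * ψ (n : ZMod f) *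
          ((max (Real.log (y / n)) 0 * (o1 y + y * o2 y) : ℝ) : ℂ) := by
      intro y
      unfold PG
      rw [sum_mul]
      apply sum_congr rfl
      intro n _
      push_cast
      ring
    simp only [e2]
    rw [intervalIntegral.integral_finsetSum]
    · apply sum_congr rfl
      intro n hn
      rw [mem_Icc] at hn
      have hnY : (n : ℝ) ≤ Y := (Nat.le_floor_iff hY0.le).1 hn.2
      rw [intervalIntegral.integral_const_mul]
      congr 1
      rw [← o_eq hd hd1 hc h0 n hn.1 hnY]
      exact intervalIntegral.integral_ofReal.symm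
    · intro n hn
      rw [mem_Icc] at hn
      apply ContinuousOn.intervalIntegrable
      apply ContinuousOn.mul continuousOn_const
      apply Complex.continuous_ofReal.comp_continuousOn
      exact ((mx_cont n hn.1).mono hsub).mul hh.continuousOn
  rw [h1]
  unfold Pool.Agent.D0H44.FR.II
  rw [← intervalIntegral.integral_const_mul]
  refine (intervalIntegral.norm_integral_le_integral_norm hY).trans ?_
  apply intervalIntegral.integral_mono_on hY
  · apply ContinuousOn.intervalIntegrable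
    exact (hPG.mul (Complex.continuous_ofReal.comp_continuousOn hh.continuousOn)).norm
  · apply ContinuousOn.intervalIntegrable
    apply ContinuousOn.mul continuousOn_const
    apply ContinuousOn.div hPG.norm continuousOn_id
    intro x hx
    have : (1 : ℝ) ≤ x := hsub hx
    simp only [id]
    linarith
  · intro y hy
    rw [Set.mem_Icc] at hy
    rw [norm_mul, Complex.norm_real, Real.norm_eq_abs]
    have h2 := hb y hy.1 hy.2
    calc ‖PG ⌊Y⌋₊ f ψ y‖ * |o1 y + y * o2 y| ≤ ‖PG ⌊Y⌋₊ f ψ y‖ * (C / y) := by gcongr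
      _ = _ := by ring

theorem t_IS : S_IS := by
  intro S Y B hY hB
  have hY0 : 0 < Y := by linarith
  have hsub : Set.uIcc 1 Y ⊆ Set.Ici (1 : ℝ) := by
    intro x hx
    rw [Set.uIcc_of_le hY] at hx
    exact hx.1
  have hcont : ∀ (f : ℕ) (ψ : DirichletCharacter ℂ f),
      ContinuousOn (fun y => ‖PG ⌊Y⌋₊ f ψ y‖ / y) (Set.uIcc 1 Y) := by
    intro f ψ
    apply ContinuousOn.div ((PG_cont _ _ _).mono hsub).norm continuousOn_id
    intro x hx
    have : (1 : ℝ) ≤ x := hsub hx
    simp only [id]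
    linarith
  have h1 : ∑ f ∈ S, ∑ ψ ∈ Prim f, Pool.Agent.D0H44.FR.II Y f ψ =
      ∫ y in (1 : ℝ)..Y, ∑ f ∈ S, ∑ ψ ∈ Prim f, ‖PG ⌊Y⌋₊ f ψ y‖ / y := by
    unfold Pool.Agent.D0H44.FR.II
    rw [intervalIntegral.integral_finsetSum]
    · apply sum_congr rfl
      intro f _
      rw [intervalIntegral.integral_finsetSum]
      intro ψ _
      exact (hcont f ψ).intervalIntegrable
    · intro f _
      exact (continuousOn_finsetSum _ fun ψ _ => hcont f ψ).intervalIntegrable
  rw [h1]
  have h2 : ∫ y in (1 : ℝ)..Y, ∑ f ∈ S, ∑ ψ ∈ Prim f, ‖PG ⌊Y⌋₊ f ψ y‖ / y ≤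
      ∫ y in (1 : ℝ)..Y, B * y⁻¹ := by
    apply intervalIntegral.integral_mono_on hY
    · exact (continuousOn_finsetSum _ fun f _ => continuousOn_finsetSum _ fun ψ _ =>
        hcont f ψ).intervalIntegrable
    · apply ContinuousOn.intervalIntegrable
      apply ContinuousOn.mul continuousOn_const
      apply ContinuousOn.inv₀ continuousOn_id
      intro x hx
      have : (1 : ℝ) ≤ x := hsub hx
      simp only [id]
      linarith
    · intro y hy
      rw [Set.mem_Icc] at hy
      have hy0 : 0 < y := by linarith [hy.1]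
      have h3 := hB y hy.1 hy.2
      simp only [← sum_div]
      rw [div_eq_mul_inv]
      apply mul_le_mul_of_nonneg_right _ (by positivity)
      refine le_trans (le_of_eq ?_) h3
      apply sum_congr rfl
      intro f _
      apply sum_congr rfl
      intro ψ _
      rw [PG_eq ⌊Y⌋₊ f ψ y hy0 (Nat.floor_mono hy.2)]
  refine h2.trans (le_of_eq ?_)
  rw [intervalIntegral.integral_const_mul, integral_inv_of_pos one_pos hY0, div_one]

end Pool.Agent.D0H51.FR
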